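import Mathlib

set_option autoImplicit false

namespace Pool.Agent.Results.MP_2b19eb_nt.EightyOne

/-- `lcmUpTo n` is the least common multiple of `1, 2, ..., n`. -/
def lcmUpTo (n : ℕ) : ℕ := (Finset.Icc 1 n).lcm id

/-- `a n = L_n / q_n`, where `L_n = lcm(1, ..., n)` and `q_n` is the denominator (in lowest
terms) of the harmonic number `H_n = 1 + 1/2 + ... + 1/n`. -/
def a (n : ℕ) : ℕ := lcmUpTo n / (∑ k ∈ Finset.Icc 1 n, (1 : ℚ) / (k : ℚ)).den

theorem dvd_lcmUpTo {n k : ℕ} (hk : k ∈ Finset.Icc 1 n) : k ∣ lcmUpTo n :=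
  Finset.dvd_lcm (f := id) hk

theorem lcmUpTo_ne_zero (n : ℕ) : lcmUpTo n ≠ 0 := by
  unfold lcmUpTo
  rw [Ne, Finset.lcm_eq_zero_iff]
  simp

/-- The integer `L_n H_n`, written as a sum of natural numbers. -/
theorem lcm_mul_harm (n : ℕ) :
    (lcmUpTo n : ℚ) * (∑ k ∈ Finset.Icc 1 n, (1 : ℚ) / (k : ℚ)) =
      ((∑ k ∈ Finset.Icc 1 n, lcmUpTo n / k : ℕ) : ℚ) := by
  rw [Finset.mul_sum, Nat.cast_sum]
  refine Finset.sum_congr rfl fun k hk => ?_
  have hk0 : (k : ℚ) ≠ 0 := by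
    have := (Finset.mem_Icc.mp hk).1
    positivity
  rw [Nat.cast_div (dvd_lcmUpTo hk) hk0]
  ring

/-- `q_n` divides `L_n`. -/
theorem den_dvd (n : ℕ) :
    (∑ k ∈ Finset.Icc 1 n, (1 : ℚ) / (k : ℚ)).den ∣ lcmUpTo n := by
  set H : ℚ := ∑ k ∈ Finset.Icc 1 n, (1 : ℚ) / (k : ℚ) with hH
  have h1 := lcm_mul_harm n
  rw [← hH] at h1
  generalize hS : (∑ k ∈ Finset.Icc 1 n, lcmUpTo n / k) = S at h1
  have h2 : (lcmUpTo n : ℚ) * (H.num : ℚ) = (S : ℚ) * (H.den : ℚ) := by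
    rw [← h1]
    have : H * (H.den : ℚ) = H.num := Rat.mul_den_eq_num H
    rw [← this]; ring
  have h3 : (lcmUpTo n : ℤ) * H.num = (S : ℤ) * (H.den : ℤ) := by
    have h3' : (((lcmUpTo n : ℤ) * H.num : ℤ) : ℚ) = (((S : ℤ) * (H.den : ℤ) : ℤ) : ℚ) := by
      push_cast
      exact h2
    exact_mod_cast h3'
  have h4 : (H.den : ℤ) ∣ (lcmUpTo n : ℤ) * H.num := ⟨_, by rw [h3]; ring⟩
  have h5 : IsCoprime (H.den : ℤ) H.num := by
    have := H.reduced
    rw [Int.isCoprime_iff_gcd_eq_one]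
    have h6 := Nat.Coprime.symm this
    simpa [Int.gcd] using h6
  have := h5.dvd_of_dvd_mul_right h4
  exact_mod_cast this

/-- If `m ∣ a n` then `m ∣ ∑_{k ≤ n} L_n / k`. -/
theorem step_one {n m : ℕ} (h : m ∣ a n) :
    m ∣ ∑ k ∈ Finset.Icc 1 n, lcmUpTo n / k := by
  set H : ℚ := ∑ k ∈ Finset.Icc 1 n, (1 : ℚ) / (k : ℚ) with hH
  have hd : H.den ∣ lcmUpTo n := den_dvd n
  have h0 : a n = lcmUpTo n / H.den := rfl
  have h1 := lcm_mul_harm n
  rw [← hH] at h1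
  have hL : lcmUpTo n = a n * H.den := by rw [h0, Nat.div_mul_cancel hd]
  generalize hS : (∑ k ∈ Finset.Icc 1 n, lcmUpTo n / k) = S at h1 ⊢
  have h2 : (S : ℚ) = (a n : ℚ) * H.num := by
    rw [← h1, hL]
    have : H * (H.den : ℚ) = H.num := Rat.mul_den_eq_num H
    rw [← this]; push_cast; ring
  have h3 : (S : ℤ) = (a n : ℤ) * H.num := by
    have h3' : (((S : ℤ) : ℤ) : ℚ) = (((a n : ℤ) * H.num : ℤ) : ℚ) := by
      push_cast
      exact h2
    exact_mod_cast h3'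
  have h4 : (m : ℤ) ∣ (S : ℤ) := by
    rw [h3]
    exact Dvd.dvd.mul_right (by exact_mod_cast h) _
  exact_mod_cast h4

/-- The finite check: for `27 ≤ t ≤ 80`, `81` does not divide `∑_{i ≤ t} lcm(1..80)/i`. -/
theorem finite_check : ∀ t : ℕ, 27 ≤ t → t ≤ 80 →
    ¬ 81 ∣ ∑ i ∈ Finset.Icc 1 t, 32433859254793982911622772305630400 / i := by
  intro t h1 h2
  interval_cases t <;> decide +kernel

/-- A divisor `j` of `3 ^ e * M` with `3 ^ (k + 1) ∤ j` divides `3 ^ k * M`. -/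
theorem dvd_of_not_pow_dvd {j e M k : ℕ} (hj : j ∣ 3 ^ e * M)
    (hk : ¬ 3 ^ (k + 1) ∣ j) : j ∣ 3 ^ k * M := by
  have hj0 : j ≠ 0 := by
    rintro rfl
    exact hk (dvd_zero _)
  obtain ⟨v, j', hj', rfl⟩ := Nat.exists_eq_pow_mul_and_not_dvd hj0 3 (by norm_num)
  have hv : v ≤ k := by
    by_contra hlt
    push Not at hlt
    exact hk (Dvd.dvd.mul_right (pow_dvd_pow 3 hlt) _)
  have h1 : j' ∣ 3 ^ e * M := dvd_trans (Dvd.intro_left _ rfl) hj
  have hcop : Nat.Coprime j' (3 ^ e) :=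
    Nat.Coprime.pow_right _ (((Nat.Prime.coprime_iff_not_dvd Nat.prime_three).2 hj').symm)
  have h2 : j' ∣ M := hcop.dvd_of_dvd_mul_left h1
  exact mul_dvd_mul (pow_dvd_pow 3 hv) h2

/-- `81` never divides `L_n / q_n`. -/
theorem not_dvd (n : ℕ) (hn : 1 ≤ n) : ¬ 81 ∣ a n := by
  intro h
  have hsum := step_one h
  obtain ⟨e, M, hM, hL⟩ := Nat.exists_eq_pow_mul_and_not_dvd (lcmUpTo_ne_zero n) 3 (by norm_num)
  have hn0 : n ≠ 0 := by omega
  obtain ⟨k, hk1, hk2⟩ : ∃ k, 3 ^ k ≤ n ∧ n < 3 ^ (k + 1) :=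
    ⟨Nat.log 3 n, Nat.pow_log_le_self 3 hn0, Nat.lt_pow_succ_log_self (by norm_num) n⟩
  -- the exact power of 3 in `L_n` is `3 ^ k`
  have hek : e = k := by
    apply le_antisymm
    · have h1 : lcmUpTo n ∣ 3 ^ k * M := by
        unfold lcmUpTo
        refine Finset.lcm_dvd fun j hj => ?_
        refine dvd_of_not_pow_dvd (hL ▸ dvd_lcmUpTo hj) fun hdvd => ?_
        have h2 := Finset.mem_Icc.mp hj
        have h3 := Nat.le_of_dvd (by simp only [id]; omega) hdvd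
        simp only [id] at h3
        omega
      rw [hL] at h1
      have hM0 : 0 < M := Nat.pos_of_ne_zero fun h0 => hM (h0 ▸ dvd_zero 3)
      have h4 : 3 ^ e ∣ 3 ^ k := Nat.dvd_of_mul_dvd_mul_right hM0 h1
      exact (Nat.pow_dvd_pow_iff_le_right (by norm_num)).1 h4
    · have h1 : 3 ^ k ∣ 3 ^ e * M := by
        rw [← hL]
        exact dvd_lcmUpTo (Finset.mem_Icc.mpr ⟨Nat.one_le_pow _ _ (by norm_num), hk1⟩)
      have hcop : Nat.Coprime (3 ^ k) M :=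
        Nat.Coprime.pow_left _ ((Nat.Prime.coprime_iff_not_dvd Nat.prime_three).2 hM)
      have h4 : 3 ^ k ∣ 3 ^ e := hcop.dvd_of_dvd_mul_right h1
      exact (Nat.pow_dvd_pow_iff_le_right (by norm_num)).1 h4
  subst hek
  -- `81 ∣ L_n`, so `4 ≤ k`
  have h81 : 81 ∣ lcmUpTo n := by
    have : a n ∣ lcmUpTo n := Nat.div_dvd_of_dvd (den_dvd n)
    exact dvd_trans h this
  have hk4 : 4 ≤ e := by
    rw [hL] at h81
    have hcop : Nat.Coprime (3 ^ 4) M :=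
      Nat.Coprime.pow_left _ ((Nat.Prime.coprime_iff_not_dvd Nat.prime_three).2 hM)
    have h4 : 3 ^ 4 ∣ 3 ^ e := hcop.dvd_of_dvd_mul_right (by simpa using h81)
    exact (Nat.pow_dvd_pow_iff_le_right (by norm_num)).1 h4
  obtain ⟨f, rfl⟩ : ∃ f, e = f + 4 := ⟨e - 4, by omega⟩
  set t := n / 3 ^ (f + 1) with ht
  have hpos : 0 < 3 ^ (f + 1) := by positivity
  have ht1 : 27 ≤ t := by
    rw [ht, Nat.le_div_iff_mul_le hpos]
    calc 27 * 3 ^ (f + 1) = 3 ^ (f + 4) := by ring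
      _ ≤ n := hk1
  have ht2 : t ≤ 80 := by
    have : t < 81 := by
      rw [ht, Nat.div_lt_iff_lt_mul hpos]
      calc n < 3 ^ (f + 4 + 1) := hk2
        _ = 81 * 3 ^ (f + 1) := by ring
    omega
  -- terms with `3 ^ (f+1) ∤ j` are divisible by 81
  have hsplit := Finset.sum_filter_add_sum_filter_not (Finset.Icc 1 n)
    (fun j => 3 ^ (f + 1) ∣ j) (fun j => lcmUpTo n / j)
  have hnot : 81 ∣ ∑ j ∈ (Finset.Icc 1 n).filter (fun j => ¬ 3 ^ (f + 1) ∣ j),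
      lcmUpTo n / j := by
    refine Finset.dvd_sum fun j hj => ?_
    rw [Finset.mem_filter] at hj
    have hjL : j ∣ 3 ^ (f + 4) * M := hL ▸ dvd_lcmUpTo hj.1
    have hj2 : j ∣ 3 ^ f * M := dvd_of_not_pow_dvd hjL hj.2
    obtain ⟨c, hc⟩ := hj2
    have hj0 : 0 < j := (Finset.mem_Icc.mp hj.1).1
    have : lcmUpTo n / j = 81 * c := by
      apply Nat.div_eq_of_eq_mul_right hj0
      rw [hL]
      calc 3 ^ (f + 4) * M = 81 * (3 ^ f * M) := by ring
        _ = j * (81 * c) := by rw [hc]; ring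
    rw [this]
    exact Dvd.intro _ rfl
  have hyes : 81 ∣ ∑ j ∈ (Finset.Icc 1 n).filter (fun j => 3 ^ (f + 1) ∣ j),
      lcmUpTo n / j := by
    rw [← hsplit] at hsum
    exact (Nat.dvd_add_left hnot).1 hsum
  -- reindex
  have hreindex : ∑ j ∈ (Finset.Icc 1 n).filter (fun j => 3 ^ (f + 1) ∣ j), lcmUpTo n / j =
      ∑ i ∈ Finset.Icc 1 t, (27 * M) / i := by
    symm
    refine Finset.sum_bij (fun i _ => 3 ^ (f + 1) * i) ?_ ?_ ?_ ?_
    · intro i hi
      rw [Finset.mem_Icc] at hi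
      rw [Finset.mem_filter, Finset.mem_Icc]
      refine ⟨⟨Nat.one_le_iff_ne_zero.2 (by have := hi.1; positivity), ?_⟩, Dvd.intro _ rfl⟩
      calc 3 ^ (f + 1) * i ≤ 3 ^ (f + 1) * t := Nat.mul_le_mul_left _ hi.2
        _ ≤ n := Nat.mul_div_le n _
    · intro i _ j _ hij
      exact Nat.eq_of_mul_eq_mul_left hpos hij
    · intro j hj
      rw [Finset.mem_filter, Finset.mem_Icc] at hj
      obtain ⟨⟨hj1, hj2⟩, c, rfl⟩ := hj
      refine ⟨c, ?_, rfl⟩
      rw [Finset.mem_Icc]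
      refine ⟨Nat.one_le_iff_ne_zero.2 (by rintro rfl; simp at hj1), ?_⟩
      rw [ht, Nat.le_div_iff_mul_le hpos, mul_comm]
      exact hj2
    · intro i _
      rw [hL]
      have : 3 ^ (f + 4) * M = 3 ^ (f + 1) * (27 * M) := by ring
      rw [this, Nat.mul_div_mul_left _ _ hpos]
  rw [hreindex] at hyes
  -- compare with the fixed multiple `B` of `1, ..., 80`
  set B : ℕ := 32433859254793982911622772305630400 with hB
  have hcmp : B * ∑ i ∈ Finset.Icc 1 t, (27 * M) / i = (27 * M) * ∑ i ∈ Finset.Icc 1 t, B / i := by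
    rw [Finset.mul_sum, Finset.mul_sum]
    refine Finset.sum_congr rfl fun i hi => ?_
    have hi' := Finset.mem_Icc.mp hi
    have hiB : i ∣ B := by
      have h1 := hi'.1
      have h2 : i ≤ 80 := le_trans hi'.2 ht2
      rw [hB]
      clear_value t
      interval_cases i <;> decide +kernel
    have hiM : i ∣ 27 * M := by
      have h1 : 3 ^ (f + 1) * i ∣ 3 ^ (f + 4) * M := by
        rw [← hL]
        apply dvd_lcmUpTo
        rw [Finset.mem_Icc]
        refine ⟨Nat.one_le_iff_ne_zero.2 (by have := hi'.1; positivity), ?_⟩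
        calc 3 ^ (f + 1) * i ≤ 3 ^ (f + 1) * t := Nat.mul_le_mul_left _ hi'.2
          _ ≤ n := Nat.mul_div_le n _
      have h2 : 3 ^ (f + 4) * M = 3 ^ (f + 1) * (27 * M) := by ring
      rw [h2] at h1
      exact Nat.dvd_of_mul_dvd_mul_left hpos h1
    obtain ⟨u, hu⟩ := hiB
    obtain ⟨w, hw⟩ := hiM
    have hi0 : 0 < i := hi'.1
    rw [hu, hw, Nat.mul_div_cancel_left _ hi0, Nat.mul_div_cancel_left _ hi0]
    ring
  have hfin : 81 ∣ ∑ i ∈ Finset.Icc 1 t, B / i := by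
    obtain ⟨c, hc⟩ := hyes
    rw [hc] at hcmp
    have hB27 : B = 27 * (B / 27) := by rw [hB]
    have h1 : 27 * (81 * (B / 27 * c)) = 27 * (M * ∑ i ∈ Finset.Icc 1 t, B / i) := by
      calc 27 * (81 * (B / 27 * c)) = (27 * (B / 27)) * (81 * c) := by ring
        _ = B * (81 * c) := by rw [← hB27]
        _ = 27 * M * ∑ i ∈ Finset.Icc 1 t, B / i := hcmp
        _ = 27 * (M * ∑ i ∈ Finset.Icc 1 t, B / i) := by ring
    have h2 : 81 * (B / 27 * c) = M * ∑ i ∈ Finset.Icc 1 t, B / i :=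
      Nat.eq_of_mul_eq_mul_left (by norm_num) h1
    have h3 : 81 ∣ M * ∑ i ∈ Finset.Icc 1 t, B / i := ⟨_, h2.symm⟩
    have hcop : Nat.Coprime 81 M := by
      have : Nat.Coprime (3 ^ 4) M :=
        Nat.Coprime.pow_left _ ((Nat.Prime.coprime_iff_not_dvd Nat.prime_three).2 hM)
      simpa using this
    exact hcop.dvd_of_dvd_mul_left h3
  exact finite_check t ht1 ht2 hfin

/-- **Disproof.** There is an odd positive integer `m` (namely `m = 81`) such that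
`a n ≠ m` for every `n ≥ 1`; in fact no value `a n` is even a multiple of `m`. -/
theorem result : ∃ m : ℕ, 0 < m ∧ Odd m ∧ ∀ n : ℕ, 1 ≤ n → a n ≠ m ∧ ¬ m ∣ a n :=
  ⟨81, by norm_num, by decide, fun n hn => ⟨fun h => not_dvd n hn (h ▸ dvd_rfl), not_dvd n hn⟩⟩

end Pool.Agent.Results.MP_2b19eb_nt.EightyOne
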